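import Pool.Agent.H11.NY.Targets

set_option autoImplicit false

open Equiv (Perm)

namespace Pool.Agent.H49.NY.IMP

open Pool.Agent.H11.NY

theorem inv_app {Ω : Type} (u : Perm Ω) (x : Ω) : u⁻¹ (u x) = x := u.symm_apply_apply x

theorem app_inv {Ω : Type} (u : Perm Ω) (x : Ω) : u (u⁻¹ x) = x := u.apply_symm_apply x

/-- two points are in the same translate of `Δ` -/
def Same {Ω : Type} (U : Subgroup (Perm Ω)) (Δ : Set Ω) (x y : Ω) : Prop :=
  ∃ u ∈ U, u x ∈ Δ ∧ u y ∈ Δ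

theorem block_mem {Ω : Type} {U : Subgroup (Perm Ω)} {Δ : Set Ω}
    (hB : MulAction.IsBlock U Δ) {u : Perm Ω} (hu : u ∈ U) {x y : Ω} (hx : x ∈ Δ)
    (hux : u x ∈ Δ) (hy : y ∈ Δ) : u y ∈ Δ := by
  have h := hB.smul_eq_of_mem (g := ⟨u, hu⟩) hx hux
  rw [← h]
  exact ⟨y, hy, rfl⟩

theorem same_refl {Ω : Type} {U : Subgroup (Perm Ω)} {Δ : Set Ω}
    (hT : MulAction.IsPretransitive U Ω) {d : Ω} (hd : d ∈ Δ) (x : Ω) : Same U Δ x x := by
  obtain ⟨⟨u, hu⟩, h⟩ := hT.exists_smul_eq x d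
  have h' : u x = d := h
  exact ⟨u, hu, by rw [h']; exact hd, by rw [h']; exact hd⟩

theorem same_symm {Ω : Type} {U : Subgroup (Perm Ω)} {Δ : Set Ω} {x y : Ω}
    (h : Same U Δ x y) : Same U Δ y x := by
  obtain ⟨u, hu, h1, h2⟩ := h
  exact ⟨u, hu, h2, h1⟩

theorem same_move {Ω : Type} {U : Subgroup (Perm Ω)} {Δ : Set Ω}
    (hB : MulAction.IsBlock U Δ) {x y : Ω} (h : Same U Δ x y) {v : Perm Ω} (hv : v ∈ U)
    (hvx : v x ∈ Δ) : v y ∈ Δ := by
  obtain ⟨u, hu, h1, h2⟩ := h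
  have h3 : (v * u⁻¹) (u x) ∈ Δ := by
    rw [Equiv.Perm.mul_apply, inv_app]; exact hvx
  have h4 := block_mem hB (U.mul_mem hv (U.inv_mem hu)) h1 h3 h2
  rw [Equiv.Perm.mul_apply, inv_app] at h4
  exact h4

theorem same_trans {Ω : Type} {U : Subgroup (Perm Ω)} {Δ : Set Ω}
    (hB : MulAction.IsBlock U Δ) {x y z : Ω} (h : Same U Δ x y) (h' : Same U Δ y z) :
    Same U Δ x z := by
  obtain ⟨u, hu, h1, h2⟩ := h
  exact ⟨u, hu, h1, same_move hB h' hu h2⟩

theorem same_smul {Ω : Type} {U : Subgroup (Perm Ω)} {Δ : Set Ω} {x y : Ω}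
    (h : Same U Δ x y) {v : Perm Ω} (hv : v ∈ U) : Same U Δ (v x) (v y) := by
  obtain ⟨u, hu, h1, h2⟩ := h
  refine ⟨u * v⁻¹, U.mul_mem hu (U.inv_mem hv), ?_, ?_⟩
  · rw [Equiv.Perm.mul_apply, inv_app]; exact h1
  · rw [Equiv.Perm.mul_apply, inv_app]; exact h2

/-- coordinates: class and position in the block -/
theorem coords {Ω : Type} [Fintype Ω] {U : Subgroup (Perm Ω)} {Δ : Set Ω}
    (hT : MulAction.IsPretransitive U Ω) (hB : MulAction.IsBlock U Δ) {d : Ω}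
    (hd : d ∈ Δ) (hne : Δ ≠ Set.univ) :
    ∃ (Q : Type) (_ : Fintype Q) (F : Q → Δ → Ω), Nontrivial Q ∧
      (∀ c c' i i', F c i = F c' i' → c = c' ∧ i = i') ∧
      (∀ c c' i i', Same U Δ (F c i) (F c' i') ↔ c = c') ∧
      Fintype.card Ω ≤ Fintype.card Q * Nat.card Δ := by
  classical
  let S : Setoid Ω := ⟨Same U Δ, same_refl hT hd, same_symm, same_trans hB⟩
  have hu : ∀ c : Quotient S, ∃ u ∈ U, u c.out ∈ Δ := by
    intro c
    obtain ⟨u, hu, h1, -⟩ := same_refl hT hd c.out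
    exact ⟨u, hu, h1⟩
  choose u hu1 hu2 using hu
  have hcl : ∀ (c : Quotient S) (i : Δ), (Quotient.mk S ((u c)⁻¹ (i : Ω))) = c := by
    intro c i
    have h1 : Same U Δ ((u c)⁻¹ (i : Ω)) c.out := by
      refine ⟨u c, hu1 c, ?_, hu2 c⟩
      rw [app_inv]; exact i.2
    have h2 : Quotient.mk S ((u c)⁻¹ (i : Ω)) = Quotient.mk S c.out := Quotient.sound h1
    rw [h2, Quotient.out_eq]
  refine ⟨Quotient S, Fintype.ofFinite _, fun c i => (u c)⁻¹ (i : Ω), ?_, ?_, ?_, ?_⟩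
  · obtain ⟨z, hz⟩ := (Set.ne_univ_iff_exists_notMem Δ).1 hne
    refine ⟨⟨Quotient.mk S d, Quotient.mk S z, fun h => hz ?_⟩⟩
    have h1 : Same U Δ d z := Quotient.exact h
    exact same_move hB h1 U.one_mem hd
  · intro c c' i i' h
    have h0 : (u c)⁻¹ (i : Ω) = (u c')⁻¹ (i' : Ω) := h
    have h1 : c = c' := by rw [← hcl c i, ← hcl c' i', h0]
    subst h1
    refine ⟨rfl, Subtype.ext ?_⟩
    exact (u c)⁻¹.injective h
  · intro c c' i i'
    constructor
    · intro h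
      rw [← hcl c i, ← hcl c' i']
      exact Quotient.sound h
    · rintro rfl
      have h1 : Quotient.mk S ((u c)⁻¹ (i : Ω)) = Quotient.mk S ((u c)⁻¹ (i' : Ω)) := by
        rw [hcl, hcl]
      exact Quotient.exact h1
  · have h1 : ∀ x : Ω, u (Quotient.mk S x) x ∈ Δ := by
      intro x
      have h2 : Same U Δ (Quotient.mk S x).out x :=
        Quotient.exact (Quotient.out_eq (Quotient.mk S x))
      exact same_move hB h2 (hu1 _) (hu2 _)
    have h3 : Function.Injective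
        (fun x : Ω => ((Quotient.mk S x, ⟨u (Quotient.mk S x) x, h1 x⟩) : Quotient S × Δ)) := by
      intro x y h
      simp only [Prod.mk.injEq, Subtype.mk.injEq] at h
      obtain ⟨h4, h5⟩ := h
      rw [h4] at h5
      exact (u _).injective h5
    have h6 := Nat.card_le_card_of_injective _ h3
    rw [Nat.card_prod, Nat.card_eq_fintype_card,
      @Nat.card_eq_fintype_card (Quotient S) (Fintype.ofFinite _)] at h6
    exact h6

/-- placement of the four families of points -/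
theorem place {Ω : Type} [Fintype Ω] {U : Subgroup (Perm Ω)} {Δ : Set Ω}
    (hT : MulAction.IsPretransitive U Ω) (hB : MulAction.IsBlock U Δ)
    (hne : Δ ≠ Set.univ) {x y : Ω} (hx : x ∈ Δ) (hy : y ∈ Δ) (hxy : x ≠ y) (M : ℕ)
    (hM : 9 * M * M ≤ Fintype.card Ω) :
    ∃ g : Fin 4 × Fin M ↪ Ω, ∀ κ : Fin M, Same U Δ (g (0, κ)) (g (1, κ)) ∧
      ¬ Same U Δ (g (2, κ)) (g (3, κ)) := by
  classical
  obtain ⟨Q, iQ, F, hQ, hF, hS, hc⟩ := coords hT hB hx hne
  by_cases hb : 3 * M ≤ Nat.card Δ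
  · rw [Nat.card_eq_fintype_card] at hb
    have h1 : Fintype.card (Fin 3 × Fin M) ≤ Fintype.card Δ := by
      rw [Fintype.card_prod, Fintype.card_fin, Fintype.card_fin]; exact hb
    obtain ⟨j⟩ := Function.Embedding.nonempty_of_card_le h1
    obtain ⟨c₁, c₂, hcc⟩ := hQ.exists_pair_ne
    refine ⟨⟨fun p => if h : (p.1 : ℕ) < 3 then F c₁ (j (⟨p.1, h⟩, p.2))
      else F c₂ (j (0, p.2)), ?_⟩, ?_⟩
    · rintro ⟨a, κ⟩ ⟨a', κ'⟩ h
      simp only at h
      split_ifs at h with h1 h2 h3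
      · have h4 := j.injective (hF _ _ _ _ h).2
        simp only [Prod.mk.injEq, Fin.mk.injEq] at h4
        ext
        · simpa using h4.1
        · simp [h4.2]
      · exact absurd (hF _ _ _ _ h).1 hcc
      · exact absurd (hF _ _ _ _ h).1 hcc.symm
      · have h4 := j.injective (hF _ _ _ _ h).2
        simp only [Prod.mk.injEq] at h4
        ext
        · have := a.2; have := a'.2; simp only; omega
        · simp [h4.2]
    · intro κ
      constructor
      · exact (hS _ _ _ _).2 rfl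
      · intro h
        exact hcc ((hS _ _ _ _).1 h)
  · have hb' : Nat.card Δ < 3 * M := by omega
    have h1 : 3 * M ≤ Fintype.card Q := by
      by_contra hlt
      have h2 : Fintype.card Q + 1 ≤ 3 * M := by omega
      have h3 : Fintype.card Q * Nat.card Δ < 3 * M * (3 * M) := by nlinarith
      have h4 : 3 * M * (3 * M) = 9 * M * M := by ring
      omega
    have h2 : Fintype.card (Fin 3 × Fin M) ≤ Fintype.card Q := by
      rw [Fintype.card_prod, Fintype.card_fin, Fintype.card_fin]; exact h1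
    obtain ⟨j⟩ := Function.Embedding.nonempty_of_card_le h2
    have hxy' : (⟨x, hx⟩ : Δ) ≠ ⟨y, hy⟩ := fun h => hxy (congrArg Subtype.val h)
    let A : Fin 4 → Fin 3 := ![0, 0, 1, 2]
    let P : Fin 4 → Δ := ![⟨x, hx⟩, ⟨y, hy⟩, ⟨x, hx⟩, ⟨x, hx⟩]
    refine ⟨⟨fun p => F (j (A p.1, p.2)) (P p.1), ?_⟩, ?_⟩
    · rintro ⟨a, κ⟩ ⟨a', κ'⟩ h
      simp only at h
      obtain ⟨h3, h4⟩ := hF _ _ _ _ h
      have h5 := j.injective h3
      simp only [Prod.mk.injEq] at h5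
      obtain ⟨h5, rfl⟩ := h5
      have h6 : a = a' := by
        fin_cases a <;> fin_cases a' <;> simp_all [A, P]
      rw [h6]
    · intro κ
      constructor
      · exact (hS _ _ _ _).2 rfl
      · intro h
        have h3 := j.injective ((hS _ _ _ _).1 h)
        simp [A] at h3

/-- the orbits of the group generated by `a` and `h` -/
def R {Ω : Type} (a h : Perm Ω) (x y : Ω) : Prop := ∃ k l : ℕ, (a ^ k * h ^ l) x = y

theorem R_trans {Ω : Type} {a h : Perm Ω} (hc : a * h = h * a) {x y z : Ω}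
    (h1 : R a h x y) (h2 : R a h y z) : R a h x z := by
  obtain ⟨k, l, rfl⟩ := h1
  obtain ⟨k', l', rfl⟩ := h2
  refine ⟨k' + k, l' + l, ?_⟩
  have hcc : Commute a h := hc
  have h3 : a ^ (k' + k) * h ^ (l' + l) = a ^ k' * h ^ l' * (a ^ k * h ^ l) := by
    rw [pow_add, pow_add, mul_assoc, mul_assoc, ← mul_assoc (a ^ k) (h ^ l') (h ^ l),
      (hcc.pow_pow k l').eq, mul_assoc (h ^ l') (a ^ k)]
  rw [h3, Equiv.Perm.mul_apply]

theorem R_symm {Ω : Type} {a h : Perm Ω} (hc : a * h = h * a) {q s : ℕ} (hq : 0 < q)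
    (hs : 0 < s) (ha : a ^ q = 1) (hh : h ^ s = 1) {x y : Ω}
    (h1 : R a h x y) : R a h y x := by
  obtain ⟨k, l, rfl⟩ := h1
  refine ⟨(q - 1) * k, (s - 1) * l, ?_⟩
  have hcc : Commute a h := hc
  rw [← Equiv.Perm.mul_apply]
  have h2 : a ^ ((q - 1) * k) * h ^ ((s - 1) * l) * (a ^ k * h ^ l) =
      a ^ ((q - 1) * k + k) * h ^ ((s - 1) * l + l) := by
    rw [pow_add, pow_add, mul_assoc, mul_assoc,
      ← mul_assoc (h ^ ((s - 1) * l)) (a ^ k) (h ^ l), ← (hcc.pow_pow k ((s - 1) * l)).eq,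
      mul_assoc (a ^ k) (h ^ ((s - 1) * l))]
  have h3 : (q - 1) * k + k = q * k := by
    rw [← Nat.succ_mul]; congr 1; omega
  have h4 : (s - 1) * l + l = s * l := by
    rw [← Nat.succ_mul]; congr 1; omega
  rw [h2, h3, h4, pow_mul, pow_mul, ha, hh, one_pow, one_pow, mul_one]
  rfl

theorem pf_imp : T_SEL → T_PLA → T_IMP := by
  intro hSEL hPLA e
  obtain ⟨B₁, hB₁⟩ := hSEL e (2 * (e + 1))
  refine ⟨B₁ + 9 * (e + 1) * (e + 1), ?_⟩
  intro Ω _ _ q s a h hP U hTC hT Δ hB hne x hx y hy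
  by_contra hxy
  obtain ⟨hqp, hqe, hs, hse, haq, hhs, hah, ha, hh⟩ := hP
  have hq : 0 < q := hqp.pos
  let t : Fin (e + 1) → Perm Ω := fun κ => if (κ : ℕ) < q then h * a ^ (κ : ℕ) else a
  have hcc : Commute a h := hah
  have ht : ∀ κ, ∃ k l : ℕ, t κ = a ^ k * h ^ l := by
    intro κ
    by_cases hκ : (κ : ℕ) < q
    · refine ⟨κ, 1, ?_⟩
      simp only [t, if_pos hκ, pow_one]
      exact ((hcc.pow_left (κ : ℕ)).eq).symm
    · refine ⟨1, 0, ?_⟩
      simp only [t, if_neg hκ, pow_one, pow_zero, mul_one]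
  have htB : ∀ κ, B₁ ≤ (t κ).support.card := by
    intro κ
    by_cases hκ : (κ : ℕ) < q
    · have h1 := hh κ hκ
      simp only [t, if_pos hκ]
      omega
    · simp only [t, if_neg hκ]
      omega
  let E : Fin (2 * (e + 1)) ≃ Fin 2 × Fin (e + 1) := finProdFinEquiv.symm
  obtain ⟨ω, hω1, hω2⟩ := hB₁ Ω a h q s hq hqe hs hse haq hhs hah
    (fun i => t (E i).2) (fun i => htB _)
  let p : Fin 2 → Fin (e + 1) → Ω := fun b κ => ω (E.symm (b, κ))
  have hp1 : ∀ b κ, t κ (p b κ) ≠ p b κ := by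
    intro b κ
    have h1 := hω1 (E.symm (b, κ))
    rw [Equiv.apply_symm_apply] at h1
    exact h1
  have hp2 : ∀ b κ b' κ', R a h (p b κ) (p b' κ') → b = b' ∧ κ = κ' := by
    rintro b κ b' κ' ⟨k, l, h1⟩
    by_contra h2
    have h3 : E.symm (b', κ') ≠ E.symm (b, κ) := by
      intro h4
      have h5 := E.symm.injective h4
      rw [Prod.mk.injEq] at h5
      exact h2 ⟨h5.1.symm, h5.2.symm⟩
    exact hω2 _ _ h3 k l h1
  -- the four points
  let f : Fin 4 × Fin (e + 1) → Ω := fun z =>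
    (![p 0 z.2, p 1 z.2, t z.2 (p 0 z.2), t z.2 (p 1 z.2)] : Fin 4 → Ω) z.1
  let bb : Fin 4 → Fin 2 := ![0, 1, 0, 1]
  have hRt : ∀ κ z, R a h z (t κ z) := by
    intro κ z
    obtain ⟨k, l, h1⟩ := ht κ
    exact ⟨k, l, by rw [h1]⟩
  have hR0 : ∀ z : Ω, R a h z z := fun z => ⟨0, 0, by simp⟩
  have hfR : ∀ z : Fin 4 × Fin (e + 1), R a h (p (bb z.1) z.2) (f z) := by
    rintro ⟨i, κ⟩
    fin_cases i
    · exact hR0 _
    · exact hR0 _
    · exact hRt _ _
    · exact hRt _ _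
  have hfinj : Function.Injective f := by
    rintro ⟨i, κ⟩ ⟨i', κ'⟩ h1
    have h2 := hfR (i, κ)
    rw [h1] at h2
    have h3 := R_trans hah h2 (R_symm hah hq hs haq hhs (hfR (i', κ')))
    obtain ⟨h4, h5⟩ := hp2 _ _ _ _ h3
    simp only at h4 h5
    subst h5
    have h6 : i = i' := by
      have e0 := hp1 0 κ
      have e1 := hp1 1 κ
      fin_cases i <;> fin_cases i' <;>
        first
        | rfl
        | exact absurd h4 (by decide)
        | exact absurd h1 e0.symm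
        | exact absurd h1 e0
        | exact absurd h1 e1.symm
        | exact absurd h1 e1
    rw [h6]
  have hcard : B₁ + 9 * (e + 1) * (e + 1) ≤ Fintype.card Ω :=
    ha.trans (Finset.card_le_univ _)
  obtain ⟨g, hg⟩ := place hT hB hne hx hy hxy (e + 1) (by omega)
  have hcard2 : Fintype.card (Fin 4 × Fin (e + 1)) + 2 ≤ Fintype.card Ω := by
    rw [Fintype.card_prod, Fintype.card_fin, Fintype.card_fin]
    nlinarith
  obtain ⟨w, hw, hwf⟩ := hPLA Ω (Fin 4 × Fin (e + 1)) ⟨f, hfinj⟩ g hcard2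
  have key : ∀ κ, w * t κ * w⁻¹ ∉ U := by
    intro κ hmem
    have h0 : w (p 0 κ) = g (0, κ) := hwf (0, κ)
    have h1 : w (p 1 κ) = g (1, κ) := hwf (1, κ)
    have h2 : w (t κ (p 0 κ)) = g (2, κ) := hwf (2, κ)
    have h3 : w (t κ (p 1 κ)) = g (3, κ) := hwf (3, κ)
    have h4 := same_smul (hg κ).1 hmem
    have h5 : (w * t κ * w⁻¹) (g (0, κ)) = g (2, κ) := by
      rw [← h0, ← h2, Equiv.Perm.mul_apply, inv_app, Equiv.Perm.mul_apply]
    have h6 : (w * t κ * w⁻¹) (g (1, κ)) = g (3, κ) := by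
      rw [← h1, ← h3, Equiv.Perm.mul_apply, inv_app, Equiv.Perm.mul_apply]
    rw [h5, h6] at h4
    exact (hg κ).2 h4
  rcases hTC w hw with h1 | ⟨κ, hκ, h1⟩
  · have h2 := key (Fin.last e)
    have h3 : t (Fin.last e) = a := by
      simp only [t, Fin.val_last]
      rw [if_neg (by omega)]
    rw [h3] at h2
    exact h2 h1
  · have h2 := key ⟨κ, by omega⟩
    have h3 : t ⟨κ, by omega⟩ = h * a ^ κ := by
      simp only [t]
      rw [if_pos hκ]
    rw [h3] at h2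
    exact h2 h1

end Pool.Agent.H49.NY.IMP
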